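import Pool.Agent.helper9.TH.Spec

/-!
# Row T5y of project th

A p'-automorphism commuting with a p-group and trivial on its fixed points is trivial.
-/

namespace Pool.Agent.helper36.TH

open Pool.Agent.helper9.TH

universe u

theorem T5y : T5y_stmt.{u} := by
  intro p V _ _ hp hpV C y hC hcop hcomm hfix
  have : Fact p.Prime := ⟨hp⟩
  obtain ⟨m, hm⟩ : ∃ m, m = orderOf y := ⟨_, rfl⟩
  obtain ⟨Y, hY⟩ : ∃ Y : AddMonoid.End V, Y = (y : AddMonoid.End V) := ⟨_, rfl⟩
  have hYm : Y ^ m = 1 := by
    rw [hY, hm, ← Units.val_pow_eq_pow_val, pow_orderOf_eq_one, Units.val_one]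
  obtain ⟨e, he⟩ : ∃ e : AddMonoid.End V, e = ∑ i ∈ Finset.range m, Y ^ i := ⟨_, rfl⟩
  have hYe : (Y - 1) * e = 0 := by
    rw [he, mul_geom_sum, hYm, sub_self]
  -- e acts as m on the fixed points of Y
  have hefix : ∀ w : V, Y w = w → e w = m • w := by
    intro w hw
    have hpow : ∀ i : ℕ, (Y ^ i) w = w := by
      intro i
      induction i with
      | zero => simp
      | succ i ih =>
        rw [pow_succ]
        show (Y ^ i) (Y w) = w
        rw [hw, ih]
    rw [he]
    have : (∑ i ∈ Finset.range m, Y ^ i) w = ∑ i ∈ Finset.range m, (Y ^ i) w := by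
      exact AddMonoidHom.finsetSum_apply _ _ _
    rw [this, Finset.sum_congr rfl (fun i _ => hpow i)]
    simp
  -- C commutes with e
  have hCe : ∀ c ∈ C, ∀ v : V, e ((c : AddMonoid.End V) v) = (c : AddMonoid.End V) (e v) := by
    intro c hc v
    have h1 : Commute (c : AddMonoid.End V) Y := by
      rw [hY]
      have h0 := congrArg Units.val (hcomm c hc)
      rw [Units.val_mul, Units.val_mul] at h0
      exact h0
    have h2 : Commute (c : AddMonoid.End V) e := by
      rw [he]
      exact Commute.sum_right _ _ _ (fun i _ => h1.pow_right i)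
    have h3 := DFunLike.congr_fun h2.eq v
    exact h3.symm
  -- the kernel of e is trivial
  have hker : ∀ w : V, e w = 0 → w = 0 := by
    intro w hw
    by_contra hne
    let S : SubMulAction C V :=
      { carrier := {v | e v = 0}
        smul_mem' := by
          intro c v hv
          have hv' : e v = 0 := hv
          show e (((c : (AddMonoid.End V)ˣ) : AddMonoid.End V) v) = 0
          rw [hCe c c.2 v, hv', map_zero] }
    have hdvd : p ∣ Nat.card S := by
      have h1 : addOrderOf (⟨w, hw⟩ : (AddMonoidHom.ker (e : V →+ V))) = p := by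
        refine addOrderOf_eq_prime ?_ ?_
        · apply Subtype.ext
          show p • w = 0
          exact hpV w
        · intro h
          exact hne (congrArg Subtype.val h)
      have h2 := addOrderOf_dvd_natCard (⟨w, hw⟩ : (AddMonoidHom.ker (e : V →+ V)))
      rw [h1] at h2
      have h3 : Nat.card S = Nat.card (AddMonoidHom.ker (e : V →+ V)) :=
        Nat.card_congr (Equiv.subtypeEquivRight (fun v => Iff.rfl))
      rw [h3]
      exact h2
    have h0 : (0 : V) ∈ S := by
      show e 0 = 0
      exact map_zero e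
    have hz : (⟨0, h0⟩ : S) ∈ MulAction.fixedPoints C S := by
      intro c
      apply Subtype.ext
      show ((c : (AddMonoid.End V)ˣ) : AddMonoid.End V) 0 = 0
      exact map_zero _
    obtain ⟨b, hb, hb0⟩ :=
      hC.exists_fixed_point_of_prime_dvd_card_of_fixed_point S hdvd hz
    have hbf : (b : V) ∈ fixpts C := by
      intro c hc
      have h4 := congrArg Subtype.val (hb ⟨c, hc⟩)
      exact h4
    have hbY : Y (b : V) = b := by
      rw [hY]
      exact hfix _ hbf
    have hbe : e (b : V) = 0 := b.2
    rw [hefix _ hbY] at hbe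
    have hb1 : addOrderOf (b : V) ∣ m := addOrderOf_dvd_of_nsmul_eq_zero hbe
    have hb2 : addOrderOf (b : V) ∣ p := addOrderOf_dvd_of_nsmul_eq_zero (hpV _)
    have hb3 : addOrderOf (b : V) ∣ Nat.gcd m p := Nat.dvd_gcd hb1 hb2
    rw [hm, hcop] at hb3
    have hb4 : (b : V) = 0 := by
      rw [← AddMonoid.addOrderOf_eq_one_iff]
      exact Nat.dvd_one.1 hb3
    exact hb0 (Subtype.ext hb4.symm)
  -- conclusion
  have hYe' : e * (Y - 1) = 0 := by
    rw [he, geom_sum_mul, hYm, sub_self]
  apply Units.ext
  rw [← hY, Units.val_one]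
  apply AddMonoidHom.ext
  intro v
  have h5 : e ((Y - 1) v) = 0 := by
    have := DFunLike.congr_fun hYe' v
    exact this
  have h6 := hker _ h5
  have h7 : Y v - v = 0 := h6
  exact sub_eq_zero.1 h7

end Pool.Agent.helper36.TH
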